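import Pool.Agent.H67.HV.CNT
import Pool.Agent.H79.HV.CLO

/-!
# Board hov_modules (MP_e37c09_lc), row COH
-/

open Ordinal Cardinal Order Set
open scoped ZFSet

universe u

namespace Pool.Agent.H88.HV

open _root_.HD HD.PRK HD.HV

open Pool.Agent.H67.HV (cA mem_cA od_cA dr_cA cY)

theorem ds_cY (h : T_WZF.{u}) (γ l κ : Ordinal.{u})
    {t : Ordinal.{u} → Ordinal.{u} → Ordinal.{u}} (htd : DO fun w => w 2 = t (w 0) (w 1))
    {J : Ordinal.{u} → Ordinal.{u} → ZFSet.{u} → Prop}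
    (hJ : DZ fun v => (v 0).IsOrdinal ∧ (v 1).IsOrdinal ∧ J (v 0).rank (v 1).rank (v 2))
    {T : ZFSet.{u}} (hT : OD T) : DS (cY γ l κ t J T) := by
  have hR := dr_cA h γ l hJ hT
  refine DO.exLtc κ (R := fun m w => ∃ i, J m i (cA γ l T m) ∧ w 0 = t m i)
    (DO.ex (R := fun i w => J (w 0) i (cA γ l T (w 0)) ∧ w 1 = t (w 0) i) (DO.and ?_ ?_))
  · exact DO.s2 (X := fun m i => J m i (cA γ l T m)) hR 1 0
  · exact htd.ren fun n => if n = 0 then 1 else if n = 1 then 0 else 2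

/-- the set coded by `A` -/
noncomputable def TT (γ l κ : Ordinal.{u}) (t : Ordinal.{u} → Ordinal.{u} → Ordinal.{u})
    (J : Ordinal.{u} → Ordinal.{u} → ZFSet.{u} → Prop) (A : ZFSet.{u}) : ZFSet.{u} :=
  ZFSet.sep (fun z => ∃ m < κ, ∃ i Y, J m i Y ∧ (t m i).toZFSet ∈ A ∧ z ∈ Y)
    (ZFSet.prod (V_ l) (Wz γ κ))

theorem mem_TT {γ l κ : Ordinal.{u}} {t : Ordinal.{u} → Ordinal.{u} → Ordinal.{u}}
    {J : Ordinal.{u} → Ordinal.{u} → ZFSet.{u} → Prop} {A z : ZFSet.{u}} :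
    z ∈ TT γ l κ t J A ↔ (∃ x ∈ V_ l, ∃ y ∈ Wz γ κ, z = ZFSet.pair x y) ∧
      ∃ m < κ, ∃ i Y, J m i Y ∧ (t m i).toZFSet ∈ A ∧ z ∈ Y := by
  unfold TT
  rw [ZFSet.mem_sep, ZFSet.mem_prod]

theorem od_TT (h : T_WZF.{u}) (γ l κ : Ordinal.{u})
    {t : Ordinal.{u} → Ordinal.{u} → Ordinal.{u}} (htd : DO fun w => w 2 = t (w 0) (w 1))
    {J : Ordinal.{u} → Ordinal.{u} → ZFSet.{u} → Prop}
    (hJ : DZ fun v => (v 0).IsOrdinal ∧ (v 1).IsOrdinal ∧ J (v 0).rank (v 1).rank (v 2))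
    {A : ZFSet.{u}} (hA : OD A) : OD (TT γ l κ t J A) := by
  obtain ⟨Q, hQ, hQe⟩ := htd
  have hQ' : ∀ m i c : Ordinal.{u}, c = t m i ↔
      Q (fun n => if n = 0 then m.toZFSet else if n = 1 then i.toZFSet else c.toZFSet) := by
    intro m i c
    have h1 := hQe (fun n => if n = 0 then m else if n = 1 then i else c)
    have h2 : ov (fun n => if n = 0 then m else if n = 1 then i else c) =
        fun n => if n = 0 then m.toZFSet else if n = 1 then i.toZFSet else c.toZFSet := by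
      funext n
      show (if n = 0 then m else if n = 1 then i else c).toZFSet = _
      split_ifs <;> rfl
    rw [h2] at h1
    exact h1
  refine OD.of_mem (P := fun v => (∃ x ∈ V_ l, ∃ y ∈ Wz γ κ, v 0 = ZFSet.pair x y) ∧
    ∃ m, m ∈ κ.toZFSet ∧ ∃ i, ∃ Y, (m.IsOrdinal ∧ i.IsOrdinal ∧ J m.rank i.rank Y) ∧
      v 0 ∈ Y ∧ ∃ c, (c.IsOrdinal ∧ c ∈ A) ∧
        Q (fun n => if n = 0 then m else if n = 1 then i else c)) (DZ.and ?_ ?_) fun v => ?_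
  · refine DZ.od (R := fun b v => ∃ x ∈ b, ∃ y ∈ Wz γ κ, v 0 = ZFSet.pair x y) (NF.od_V l) ?_
    refine DZ.od (R := fun b v => ∃ x ∈ v 0, ∃ y ∈ b, v 1 = ZFSet.pair x y) (h.2.1 γ κ) ?_
    exact DZ.exMem 1 (DZ.exMem 1 (loc_pair _ _ _).dz)
  · refine DZ.od (R := fun b v => ∃ m, m ∈ b ∧ ∃ i, ∃ Y,
      (m.IsOrdinal ∧ i.IsOrdinal ∧ J m.rank i.rank Y) ∧ v 0 ∈ Y ∧ ∃ c, (c.IsOrdinal ∧ c ∈ A) ∧
        Q (fun n => if n = 0 then m else if n = 1 then i else c)) (OD.ordinal κ) ?_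
    refine DZ.od (R := fun b v => ∃ m, m ∈ v 0 ∧ ∃ i, ∃ Y,
      (m.IsOrdinal ∧ i.IsOrdinal ∧ J m.rank i.rank Y) ∧ v 1 ∈ Y ∧ ∃ c, (c.IsOrdinal ∧ c ∈ b) ∧
        Q (fun n => if n = 0 then m else if n = 1 then i else c)) hA ?_
    refine DZ.ex (R := fun m v => m ∈ v 1 ∧ ∃ i, ∃ Y,
      (m.IsOrdinal ∧ i.IsOrdinal ∧ J m.rank i.rank Y) ∧ v 2 ∈ Y ∧ ∃ c,
        (c.IsOrdinal ∧ c ∈ v 0) ∧
        Q (fun n => if n = 0 then m else if n = 1 then i else c)) (DZ.and (DZ.mem 0 2) ?_)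
    refine DZ.ex (R := fun i v => ∃ Y,
      ((v 0).IsOrdinal ∧ i.IsOrdinal ∧ J (v 0).rank i.rank Y) ∧ v 3 ∈ Y ∧ ∃ c,
        (c.IsOrdinal ∧ c ∈ v 1) ∧
        Q (fun n => if n = 0 then v 0 else if n = 1 then i else c)) ?_
    refine DZ.ex (R := fun Y v =>
      ((v 1).IsOrdinal ∧ (v 0).IsOrdinal ∧ J (v 1).rank (v 0).rank Y) ∧ v 4 ∈ Y ∧ ∃ c,
        (c.IsOrdinal ∧ c ∈ v 2) ∧
        Q (fun n => if n = 0 then v 1 else if n = 1 then v 0 else c))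
      (DZ.and (hJ.ren fun n => if n = 0 then 2 else if n = 1 then 1 else 0)
        (DZ.and (DZ.mem 5 0) ?_))
    refine DZ.ex (R := fun c v => (c.IsOrdinal ∧ c ∈ v 3) ∧
        Q (fun n => if n = 0 then v 2 else if n = 1 then v 1 else c))
      (DZ.and ((DZ.ord 0).and (DZ.mem 0 4)) ?_)
    refine (hQ.ren fun n => if n = 0 then 3 else if n = 1 then 2 else 0).congr fun v => ?_
    have : (fun n => if n = 0 then v 3 else if n = 1 then v 2 else v 0) =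
        fun n => v (if n = 0 then 3 else if n = 1 then 2 else 0) := by
      funext n
      split_ifs <;> rfl
    show Q (fun n => if n = 0 then v 3 else if n = 1 then v 2 else v 0) ↔ _
    rw [this]
  · rw [mem_TT]
    refine and_congr_right fun _ => ?_
    constructor
    · rintro ⟨m, hm, i, Y, ⟨hmo, hio, hj⟩, hz, c, ⟨hco, hcA⟩, hq⟩
      obtain ⟨m, rfl⟩ := ord_of hmo
      obtain ⟨i, rfl⟩ := ord_of hio
      obtain ⟨c, rfl⟩ := ord_of hco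
      rw [rank_toZFSet, rank_toZFSet] at hj
      have hc := (hQ' m i c).2 hq
      exact ⟨m, toZFSet_mem_toZFSet_iff.1 hm, i, Y, hj, hc ▸ hcA, hz⟩
    · rintro ⟨m, hm, i, Y, hj, hA', hz⟩
      refine ⟨m.toZFSet, toZFSet_mem_toZFSet_iff.2 hm, i.toZFSet, Y,
        ⟨ZFSet.isOrdinal_toZFSet _, ZFSet.isOrdinal_toZFSet _, ?_⟩, hz, (t m i).toZFSet,
        ⟨ZFSet.isOrdinal_toZFSet _, hA'⟩, (hQ' m i _).1 rfl⟩
      rw [rank_toZFSet, rank_toZFSet]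
      exact hj

/-- an element of `V_ l × Wz γ a` is in `V_ l × Wz γ m` for some `m < a` -/
theorem low {γ l a : Ordinal.{u}} (ha : IsSuccLimit a) {z : ZFSet.{u}}
    (hz : z ∈ ZFSet.prod (V_ l) (Wz γ a)) : ∃ m < a, ∃ x ∈ V_ l, ∃ y ∈ Wz γ m,
      z = ZFSet.pair x y := by
  obtain ⟨x, hx, y, hy, rfl⟩ := ZFSet.mem_prod.1 hz
  have hy' : y ∈ ZFSet.sep (NV γ) (V_ a) := hy
  rw [ZFSet.mem_sep] at hy'
  have hr : y.rank < a := ZFSet.mem_vonNeumann.1 hy'.1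
  refine ⟨succ y.rank, ha.succ_lt hr, x, hx, y, ?_, rfl⟩
  unfold Wz
  rw [ZFSet.mem_sep]
  exact ⟨ZFSet.mem_vonNeumann.2 (lt_succ _), hy'.2⟩

theorem Wz_mono {γ a b : Ordinal.{u}} (hab : a ≤ b) {y : ZFSet.{u}} (hy : y ∈ Wz γ a) :
    y ∈ Wz γ b := by
  have hy' : y ∈ ZFSet.sep (NV γ) (V_ a) := hy
  rw [ZFSet.mem_sep] at hy'
  unfold Wz
  rw [ZFSet.mem_sep]
  exact ⟨ZFSet.vonNeumann_subset_of_le hab hy'.1, hy'.2⟩

/-- two points of the code -/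
theorem code_eq {γ l a : Ordinal.{u}} {t : Ordinal.{u} → Ordinal.{u} → Ordinal.{u}}
    {K : Cardinal.{u}} {J : Ordinal.{u} → Ordinal.{u} → ZFSet.{u} → Prop} (hJ : Cdg γ l K J)
    (htinj : ∀ a b a' b', t a b = t a' b' → a = a' ∧ b = b') {R A : ZFSet.{u}}
    (hy : os a (cY γ l a t J R) = A ∩ a.toZFSet) {m i : Ordinal.{u}} {Y : ZFSet.{u}}
    (hj : J m i Y) (hta : t m i < a) (hA : (t m i).toZFSet ∈ A) : Y = cA γ l R m := by
  have h1 : (t m i).toZFSet ∈ os a (cY γ l a t J R) := by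
    rw [hy, ZFSet.mem_inter]
    exact ⟨hA, toZFSet_mem_toZFSet_iff.2 hta⟩
  obtain ⟨-, m', -, i', hi', he⟩ := ord_mem_os.1 h1
  obtain ⟨rfl, rfl⟩ := htinj _ _ _ _ he
  exact hJ.un _ _ _ _ hj hi'

theorem code_mem {γ l a : Ordinal.{u}} {t : Ordinal.{u} → Ordinal.{u} → Ordinal.{u}}
    {J : Ordinal.{u} → Ordinal.{u} → ZFSet.{u} → Prop} {R A : ZFSet.{u}}
    (hy : os a (cY γ l a t J R) = A ∩ a.toZFSet) {m i : Ordinal.{u}} (hm : m < a)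
    (hj : J m i (cA γ l R m)) (hta : t m i < a) : (t m i).toZFSet ∈ A := by
  have h1 : (t m i).toZFSet ∈ os a (cY γ l a t J R) :=
    ord_mem_os.2 ⟨hta, m, hm, i, hj, rfl⟩
  rw [hy, ZFSet.mem_inter] at h1
  exact h1.1

theorem clb_gt {K : Cardinal.{u}} {C : Set Ordinal.{u}} (hC : Clb K.ord C)
    {d : Ordinal.{u}} (hd : d < K.ord) : Clb K.ord {x | x ∈ C ∧ d < x} := by
  refine ⟨fun a ha => ?_, fun x hx hx0 h => ⟨hC.cls x hx hx0 fun y hy => ?_, ?_⟩⟩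
  · obtain ⟨b, hb, hab, hbC⟩ := hC.unb (max a d) (max_lt ha hd)
    exact ⟨b, hb, (le_max_left a d).trans_lt hab, hbC, (le_max_right a d).trans_lt hab⟩
  · obtain ⟨z, hz, hyz, hz2⟩ := h y hy
    exact ⟨z, hz, hyz, hz2.1⟩
  · obtain ⟨z, hz, -, hz2⟩ := h 0 hx0
    exact lt_trans hz2.2 hz

theorem pf_COH (h : T_WZF.{u}) : T_COH.{u} := by
  intro K hK hK0 hVI γ l J hJ S R hS hR
  obtain ⟨t, htd, htinj, htlt⟩ := All.pr.{u}
  have hlt : ∀ a < K.ord, ∀ b < K.ord, t a b < K.ord := htlt K hK0.le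
  have hlim : IsSuccLimit K.ord := Cardinal.isSuccLimit_ord hK.1
  -- the bounds
  have hbd : ∀ m, ∃ s, m < K.ord → s < K.ord ∧ ∀ i Y, J m i Y → t m i < s := by
    intro m
    by_cases hm : m < K.ord
    · obtain ⟨b, hb, hb'⟩ := hJ.bd m hm
      obtain ⟨s, hs, h1⟩ := Pool.Agent.H54.CL.bd1 hK hb (fun i => t m i)
        fun i hi => hlt m hm i (hi.trans_lt hb)
      exact ⟨succ s, fun _ => ⟨hlim.succ_lt hs, fun i Y hj =>
        Order.lt_succ_of_le (h1 i (hb' i Y hj).le)⟩⟩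
    · exact ⟨0, fun h => absurd h hm⟩
  choose s hs using hbd
  have hC1 := Pool.Agent.H79.HV.clo_clb hK hK0 0 s fun z hz => (hs z hz).1
  have hcof : ℵ₀ < K.ord.cof := by
    rw [hK.cof_ord]
    exact hK0
  -- the sets
  have hyy : ∀ a ∈ S, a < K.ord → HOD (os a (cY γ l a t J (R a))) ∧
      os a (cY γ l a t J (R a)) ⊆ a.toZFSet := by
    intro a ha haK
    refine ⟨hod_os (ds_cY h γ l a htd hJ.dz (hR a ha haK).1) a, fun z hz => ?_⟩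
    obtain ⟨b, hb, -, rfl⟩ := mem_os.1 hz
    exact toZFSet_mem_toZFSet_iff.2 hb
  obtain ⟨A, hA, hAK, hAS⟩ := hVI S (fun a => os a (cY γ l a t J (R a))) hS hyy
  refine ⟨TT γ l K.ord t J A, od_TT h γ l K.ord htd hJ.dz hA.od, ?_, fun C hC => ?_⟩
  · intro z hz
    exact ZFSet.mem_prod.2 (mem_TT.1 hz).1
  obtain ⟨a, haK, ⟨haC, hal, has, -⟩, haS, hya⟩ := hAS _ (All.ci K.ord C _ hcof hC hC1)
  refine ⟨a, haK, haC, haS, fun z => ?_⟩
  have key : ∀ m < a, ∀ i Y, J m i Y → t m i < a := fun m hm i Y hj =>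
    ((hs m (hm.trans haK)).2 i Y hj).trans (has m hm)
  constructor
  · intro hz
    have hz' := (hR a haS haK).2 hz
    refine ⟨?_, hz'⟩
    obtain ⟨m, hm, x, hx, y, hy, rfl⟩ := low hal hz'
    have hzA : ZFSet.pair x y ∈ cA γ l (R a) m := mem_cA.2 ⟨hz, x, hx, y, hy, rfl⟩
    have hsub : cA γ l (R a) m ⊆ ZFSet.prod (V_ l) (Wz γ m) := fun w hw =>
      ZFSet.mem_prod.2 (mem_cA.1 hw).2
    obtain ⟨i, hi⟩ := hJ.ex m (hm.trans haK) _ (od_cA h γ l (hR a haS haK).1 m) hsub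
    exact mem_TT.2 ⟨⟨x, hx, y, Wz_mono (hm.trans haK).le hy, rfl⟩, m, hm.trans haK, i, _, hi,
      code_mem hya hm hi (key m hm i _ hi), hzA⟩
  · rintro ⟨hz, hz'⟩
    obtain ⟨-, m, hmK, i, Y, hj, htA, hzY⟩ := mem_TT.1 hz
    obtain ⟨m0, hm0, x, hx, y, hy, rfl⟩ := low hal hz'
    have htK : t m i < K.ord := (((hs m hmK).2 i Y hj).trans (hs m hmK).1)
    have hC2 := clb_gt (All.ci K.ord C _ hcof hC hC1)
      (max_lt haK (max_lt hmK htK))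
    obtain ⟨b, hbK, ⟨⟨-, hbl, hbs, -⟩, hgt⟩, hbS, hyb⟩ := hAS _ hC2
    have hab : a < b := (le_max_left _ _).trans_lt hgt
    have htb : t m i < b := ((le_max_right _ _).trans (le_max_right _ _)).trans_lt hgt
    have hY := code_eq hJ htinj hyb hj htb htA
    have hzR : ZFSet.pair x y ∈ R b := by
      rw [hY] at hzY
      exact (mem_cA.1 hzY).1
    have hzA : ZFSet.pair x y ∈ cA γ l (R b) m0 := mem_cA.2 ⟨hzR, x, hx, y, hy, rfl⟩
    have hsub : cA γ l (R b) m0 ⊆ ZFSet.prod (V_ l) (Wz γ m0) := fun w hw =>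
      ZFSet.mem_prod.2 (mem_cA.1 hw).2
    obtain ⟨i0, hi0⟩ := hJ.ex m0 (hm0.trans haK) _ (od_cA h γ l (hR b hbS hbK).1 m0) hsub
    have hta := key m0 hm0 i0 _ hi0
    have hA0 := code_mem hyb (hm0.trans hab) hi0 (hta.trans hab)
    have hY0 := code_eq hJ htinj hya hi0 hta hA0
    rw [hY0] at hzA
    exact (mem_cA.1 hzA).1

end Pool.Agent.H88.HV
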