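import Pool.Agent.H97.HV.Targets5
import Pool.Agent.H97.HV.FitI
import Pool.Agent.H11.HV.NMF

/-!
# Board hov_modules (MP_e37c09_lc), row MSC: a normal measure of HOD(V_ γ) on an inaccessible
cardinal which is not a limit of inaccessible cardinals concentrates on singular cardinals
-/

open Ordinal Cardinal Order Set
open scoped ZFSet

universe u

namespace Pool.Agent.H88.HV

open _root_.HD HD.PRK HD.HV

/-- the power set of `V_ n` is the image of a subset of `a` -/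
def Cov (a n : Ordinal.{u}) : Prop := ∃ f : ZFSet.{u}, ∀ x : ZFSet.{u}, x ⊆ V_ n →
  ∃ i ∈ a.toZFSet, ZFSet.pair i x ∈ f ∧ ∀ x', ZFSet.pair i x' ∈ f → x' = x

theorem do_cov : DO.{u} fun w => Cov (w 0) (w 1) := by
  refine ⟨fun v => ∃ W, ((v 1).IsOrdinal ∧ W = V_ (v 1).rank) ∧ ∃ f : ZFSet.{u},
    ∀ x : ZFSet.{u}, x ⊆ W → ∃ i ∈ v 0, ZFSet.pair i x ∈ f ∧
      ∀ x', ZFSet.pair i x' ∈ f → x' = x, ?_, fun w => ?_⟩
  · refine DZ.ex (R := fun W v => ((v 1).IsOrdinal ∧ W = V_ (v 1).rank) ∧ ∃ f : ZFSet.{u},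
      ∀ x : ZFSet.{u}, x ⊆ W → ∃ i ∈ v 0, ZFSet.pair i x ∈ f ∧
        ∀ x', ZFSet.pair i x' ∈ f → x' = x) (DZ.and (loc_V 2 0).dz ?_)
    refine DZ.ex (R := fun f v => ∀ x : ZFSet.{u}, x ⊆ v 0 → ∃ i ∈ v 1, ZFSet.pair i x ∈ f ∧
        ∀ x', ZFSet.pair i x' ∈ f → x' = x) ?_
    refine DZ.all (R := fun x v => x ⊆ v 1 → ∃ i ∈ v 2, ZFSet.pair i x ∈ v 0 ∧
        ∀ x', ZFSet.pair i x' ∈ v 0 → x' = x) ?_
    refine DZ.imp (Loc.sub 0 2).dz ?_
    refine DZ.exMem (R := fun i v => ZFSet.pair i (v 0) ∈ v 1 ∧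
        ∀ x', ZFSet.pair i x' ∈ v 1 → x' = v 0) 3 ?_
    refine DZ.and (loc_pmem 0 1 2).dz ?_
    refine DZ.all (R := fun x' v => ZFSet.pair (v 0) x' ∈ v 2 → x' = v 1) ?_
    exact DZ.imp (loc_pmem 1 0 3).dz (DZ.eq 0 2)
  · show Cov (w 0) (w 1) ↔ ∃ W, (((w 1).toZFSet).IsOrdinal ∧ W = V_ ((w 1).toZFSet).rank) ∧ _
    rw [rank_toZFSet]
    constructor
    · intro h
      exact ⟨_, ⟨ZFSet.isOrdinal_toZFSet _, rfl⟩, h⟩
    · rintro ⟨W, ⟨-, rfl⟩, h⟩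
      exact h

/-- `R b n`: no smaller ordinal than `b` is large enough for the power set of `V_ n` -/
def Rr (b n : Ordinal.{u}) : Prop := ∀ a < b, ¬ Cov a n

theorem dr_Rr : DR.{u} Rr := by
  refine DO.allLt (R := fun a w => ¬ Cov a (w 1)) 0 ?_
  exact (DO.s2 (X := fun a n => Cov a n) do_cov 0 2).not

theorem cov_iff {a n : Ordinal.{u}} : Cov a n ↔ (2 : Cardinal.{u}) ^ preBeth n ≤ a.card := by
  have h0 : ZFSet.card (V_ (succ n)) = (2 : Cardinal.{u}) ^ preBeth n := by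
    rw [ZFSet.card_vonNeumann, preBeth_succ]
  have h1 : #(Iio a) = Cardinal.lift.{u + 1} a.card := Cardinal.mk_Iio_ordinal a
  have h2 : ∀ x : ZFSet.{u}, x ∈ V_ (succ n) ↔ x ⊆ V_ n := by
    intro x
    rw [ZFSet.vonNeumann_succ, ZFSet.mem_powerset]
  rw [← h0, ← Cardinal.lift_le.{u + 1}, ← ZFSet.cardinalMk_coe_sort, ← h1]
  constructor
  · rintro ⟨f, hf⟩
    have h : ∀ x : V_ (succ n), ∃ i : Iio a, ZFSet.pair i.1.toZFSet x.1 ∈ f ∧
        ∀ x', ZFSet.pair i.1.toZFSet x' ∈ f → x' = x.1 := fun x => by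
      obtain ⟨i, hi, h3⟩ := hf x.1 ((h2 _).1 x.2)
      obtain ⟨j, hj, rfl⟩ := mem_toZFSet_iff.1 hi
      exact ⟨⟨j, hj⟩, h3⟩
    choose g hg using h
    refine Cardinal.mk_le_of_injective (f := g) fun x y hxy => ?_
    apply Subtype.ext
    refine (hg y).2 _ ?_
    rw [← hxy]
    exact (hg x).1
  · rintro ⟨g⟩
    refine ⟨ZFSet.sep (fun z => ∃ x : V_ (succ n), z = ZFSet.pair (g x).1.toZFSet x.1)
      (ZFSet.prod a.toZFSet (V_ (succ n))), fun x hx => ?_⟩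
    have hx' := (h2 x).2 hx
    refine ⟨(g ⟨x, hx'⟩).1.toZFSet, toZFSet_mem_toZFSet_iff.2 (g ⟨x, hx'⟩).2, ?_, ?_⟩
    · rw [ZFSet.mem_sep, ZFSet.pair_mem_prod]
      exact ⟨⟨toZFSet_mem_toZFSet_iff.2 (g ⟨x, hx'⟩).2, hx'⟩, ⟨x, hx'⟩, rfl⟩
    · intro x' h3
      obtain ⟨-, y, hy⟩ := ZFSet.mem_sep.1 h3
      obtain ⟨h4, h5⟩ := ZFSet.pair_injective hy
      have h6 : g ⟨x, hx'⟩ = g y := Subtype.ext (toZFSet_injective h4)
      have h7 := g.injective h6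
      rw [h5, ← h7]

/-- the tail sets -/
theorem tail_mem (h0 : T_PVA.{u}) (h1 : T_NMF.{u}) {γ : Ordinal.{u}} (hγ : IsSuccLimit γ)
    {K : Cardinal.{u}} (hK : ℵ₀ < K) {U : ZFSet.{u}} (hU : NMeas (NV γ) K.ord U)
    {d : Ordinal.{u}} (hd : d < K.ord) : os K.ord {a | d < a} ∈ U := by
  have hN : NV γ (os K.ord {a | d < a}) :=
    Pool.Agent.H11.HV.nv_of_hod h0 hγ.bot_lt _ (hod_os (show DS {a | d < a} from DO.gtc 0 d) _)
  have hs : os K.ord {a | d < a} ⊆ K.ord.toZFSet := by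
    intro z hz
    obtain ⟨b, hb, -, rfl⟩ := mem_os.1 hz
    exact toZFSet_mem_toZFSet_iff.2 hb
  rw [hU.ultra _ hN hs]
  intro hx
  have hlim : IsSuccLimit K.ord := Cardinal.isSuccLimit_ord hK.le
  obtain ⟨a, ha, haK, ham⟩ := (h1 γ hγ K hK U hU).2 _ hx (succ d) (hlim.succ_lt hd)
  rw [ZFSet.mem_sdiff] at ham
  exact ham.2 (ord_mem_os.2 ⟨haK, lt_of_lt_of_le (lt_succ d) ha⟩)

theorem pf_MSC (h0 : T_PVA.{u}) (h1 : T_NMF.{u}) (h2 : T_DGN.{u}) : T_MSC.{u} := by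
  intro γ hγ K hK S₀ hS₀ hmax U hU δ hδ
  have hK0 : ℵ₀ < K := hK.aleph0_lt
  have hlim : IsSuccLimit K.ord := Cardinal.isSuccLimit_ord hK0.le
  obtain ⟨A, D1, hD1, hA⟩ := h2 γ hγ K U hU Rr dr_Rr
  obtain ⟨hi, hu⟩ := h1 γ hγ K hK0 U hU
  have hgood : ∀ b < K.ord, b.toZFSet ∈ D1 → ∀ n < b, ∃ a < b, Cov a n := by
    intro b hb hbD n hn
    by_contra hcon
    have hR : Rr b n := fun a ha hc => hcon ⟨a, ha, hc⟩
    have hnA := (hA b hbD n hn).1 hR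
    have hnK : n < K.ord := hn.trans hb
    have hc : ((2 : Cardinal.{u}) ^ preBeth n).ord < K.ord := by
      have := Pool.Agent.H97.HV.card_V_lt hK (hlim.succ_lt hnK)
      rw [ZFSet.card_vonNeumann, preBeth_succ] at this
      exact Cardinal.ord_lt_ord.2 this
    obtain ⟨b1, hb1, hb1K, hb1D⟩ := hu D1 hD1 (max (succ n)
      (succ ((2 : Cardinal.{u}) ^ preBeth n).ord)) (max_lt (hlim.succ_lt hnK) (hlim.succ_lt hc))
    have hnb1 : n < b1 := lt_of_lt_of_le (lt_succ n) ((le_max_left _ _).trans hb1)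
    have hcb1 : ((2 : Cardinal.{u}) ^ preBeth n).ord < b1 :=
      lt_of_lt_of_le (lt_succ _) ((le_max_right _ _).trans hb1)
    refine (hA b1 hb1D n hnb1).2 hnA _ hcb1 (cov_iff.2 ?_)
    rw [Cardinal.card_ord]
  set d : Ordinal.{u} := max δ (max S₀.ord ω) with hd
  have hdK : d < K.ord := max_lt hδ (max_lt (Cardinal.ord_lt_ord.2 hS₀)
    (by rw [← Cardinal.ord_aleph0]; exact Cardinal.ord_lt_ord.2 hK0))
  refine ⟨D1 ∩ os K.ord {a | d < a}, hi _ hD1 _ (tail_mem h0 h1 hγ hK0 hU hdK), ?_⟩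
  intro b hbK hb
  obtain ⟨hbD, hbt⟩ := ZFSet.mem_inter.1 hb
  have hdb : d < b := (ord_mem_os.1 hbt).2
  have hg := hgood b hbK hbD
  have hδb : δ < b := (le_max_left _ _).trans_lt hdb
  have hSb : S₀.ord < b := ((le_max_left _ _).trans (le_max_right _ _)).trans_lt hdb
  have hωb : ω < b := ((le_max_right _ _).trans (le_max_right _ _)).trans_lt hdb
  -- the cardinality of the power set of `c` is less than that of `b`
  have hpow : ∀ c < b, (2 : Cardinal.{u}) ^ c.card ≤ b.card ∧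
      ∃ a < b, (2 : Cardinal.{u}) ^ c.card ≤ a.card := by
    intro c hc
    obtain ⟨a, ha, hac⟩ := hg c hc
    have h3 : c.card ≤ preBeth c := Ordinal.card_le_preBeth c
    have h4 : (2 : Cardinal.{u}) ^ c.card ≤ a.card :=
      (Cardinal.power_le_power_left two_ne_zero h3).trans (cov_iff.1 hac)
    exact ⟨h4.trans (Ordinal.card_le_card ha.le), a, ha, h4⟩
  have hcard : b = b.card.ord := by
    refine le_antisymm ?_ (Cardinal.ord_card_le b)
    by_contra hlt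
    rw [not_le] at hlt
    have h3 := (hpow _ hlt).1
    rw [Cardinal.card_ord] at h3
    exact absurd (Cardinal.cantor b.card) (not_lt.2 h3)
  have hinf : ℵ₀ < b.card := by
    rw [← Cardinal.ord_lt_ord, ← hcard, Cardinal.ord_aleph0]
    exact hωb
  refine ⟨b.card, hcard, hinf.le, fun hreg => ?_, hδb⟩
  have hsl : Cardinal.IsStrongPrelimit b.card := by
    intro x hx
    have hxb : x.ord < b := by
      rw [hcard]
      exact Cardinal.ord_lt_ord.2 hx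
    obtain ⟨-, a, ha, h3⟩ := hpow _ hxb
    rw [Cardinal.card_ord] at h3
    refine h3.trans_lt ?_
    rw [hcard] at ha
    exact Cardinal.lt_ord.1 ha
  have hin : b.card.IsInaccessible := ⟨hinf, hreg.2, hsl⟩
  have h5 := hmax b.card hin (by
    rw [← Cardinal.ord_lt_ord, ← hcard]
    exact hbK)
  have h6 : b ≤ S₀.ord := by
    rw [hcard]
    exact Cardinal.ord_le_ord.2 h5
  exact absurd hSb (not_lt.2 h6)

end Pool.Agent.H88.HV
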