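import Pool.Agent.H97.HV.Targets6
import Pool.Agent.H88.HV.MSC

/-!
# Board hov_modules (MP_e37c09_lc), row MS2
-/

open Ordinal Cardinal Order Set
open scoped ZFSet

universe u

namespace Pool.Agent.H88.HV

open _root_.HD HD.PRK HD.HV

/-- the tail sets -/
theorem tail_mem2 (h0 : T_PVA.{u}) (h1 : T_NM2.{u}) {γ : Ordinal.{u}} (hγ : IsSuccLimit γ)
    {K : Cardinal.{u}} (hK : ℵ₀ < K) {U : ZFSet.{u}} (hU : CMeas (NV γ) K.ord U)
    {d : Ordinal.{u}} (hd : d < K.ord) : os K.ord {a | d < a} ∈ U := by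
  have hN : NV γ (os K.ord {a | d < a}) :=
    Pool.Agent.H11.HV.nv_of_hod h0 hγ.bot_lt _ (hod_os (show DS {a | d < a} from DO.gtc 0 d) _)
  have hs : os K.ord {a | d < a} ⊆ K.ord.toZFSet := by
    intro z hz
    obtain ⟨b, hb, -, rfl⟩ := mem_os.1 hz
    exact toZFSet_mem_toZFSet_iff.2 hb
  rw [hU.ultra _ hN hs]
  intro hx
  have hlim : IsSuccLimit K.ord := Cardinal.isSuccLimit_ord hK.le
  obtain ⟨a, ha, haK, ham⟩ := (h1 γ hγ K hK U hU).2 _ hx (succ d) (hlim.succ_lt hd)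
  rw [ZFSet.mem_sdiff] at ham
  exact ham.2 (ord_mem_os.2 ⟨haK, lt_of_lt_of_le (lt_succ d) ha⟩)

theorem pf_MS2 (h0 : T_PVA.{u}) (h1 : T_NM2.{u}) : T_MS2.{u} := by
  intro γ hγ K hK S₀ hS₀ hmax U hU δ hδ
  have hK0 : ℵ₀ < K := hK.aleph0_lt
  have hlim : IsSuccLimit K.ord := Cardinal.isSuccLimit_ord hK0.le
  obtain ⟨A, D1, hD1, hA⟩ := hU.dgn Rr dr_Rr
  obtain ⟨hi, hu⟩ := h1 γ hγ K hK0 U hU.cm
  have hgood : ∀ b < K.ord, b.toZFSet ∈ D1 → ∀ n < b, ∃ a < b, Cov a n := by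
    intro b hb hbD n hn
    by_contra hcon
    have hR : Rr b n := fun a ha hc => hcon ⟨a, ha, hc⟩
    have hnA := (hA b hbD n hn).1 hR
    have hnK : n < K.ord := hn.trans hb
    have hc : ((2 : Cardinal.{u}) ^ preBeth n).ord < K.ord := by
      have := Pool.Agent.H97.HV.card_V_lt hK (hlim.succ_lt hnK)
      rw [ZFSet.card_vonNeumann, preBeth_succ] at this
      exact Cardinal.ord_lt_ord.2 this
    obtain ⟨b1, hb1, hb1K, hb1D⟩ := hu D1 hD1 (max (succ n)
      (succ ((2 : Cardinal.{u}) ^ preBeth n).ord)) (max_lt (hlim.succ_lt hnK) (hlim.succ_lt hc))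
    have hnb1 : n < b1 := lt_of_lt_of_le (lt_succ n) ((le_max_left _ _).trans hb1)
    have hcb1 : ((2 : Cardinal.{u}) ^ preBeth n).ord < b1 :=
      lt_of_lt_of_le (lt_succ _) ((le_max_right _ _).trans hb1)
    refine (hA b1 hb1D n hnb1).2 hnA _ hcb1 (cov_iff.2 ?_)
    rw [Cardinal.card_ord]
  set d : Ordinal.{u} := max δ (max S₀.ord ω) with hd
  have hdK : d < K.ord := max_lt hδ (max_lt (Cardinal.ord_lt_ord.2 hS₀)
    (by rw [← Cardinal.ord_aleph0]; exact Cardinal.ord_lt_ord.2 hK0))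
  refine ⟨D1 ∩ os K.ord {a | d < a}, hi _ hD1 _ (tail_mem2 h0 h1 hγ hK0 hU.cm hdK), ?_⟩
  intro b hbK hb
  obtain ⟨hbD, hbt⟩ := ZFSet.mem_inter.1 hb
  have hdb : d < b := (ord_mem_os.1 hbt).2
  have hg := hgood b hbK hbD
  have hδb : δ < b := (le_max_left _ _).trans_lt hdb
  have hSb : S₀.ord < b := ((le_max_left _ _).trans (le_max_right _ _)).trans_lt hdb
  have hωb : ω < b := ((le_max_right _ _).trans (le_max_right _ _)).trans_lt hdb
  -- the cardinality of the power set of `c` is less than that of `b`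
  have hpow : ∀ c < b, (2 : Cardinal.{u}) ^ c.card ≤ b.card ∧
      ∃ a < b, (2 : Cardinal.{u}) ^ c.card ≤ a.card := by
    intro c hc
    obtain ⟨a, ha, hac⟩ := hg c hc
    have h3 : c.card ≤ preBeth c := Ordinal.card_le_preBeth c
    have h4 : (2 : Cardinal.{u}) ^ c.card ≤ a.card :=
      (Cardinal.power_le_power_left two_ne_zero h3).trans (cov_iff.1 hac)
    exact ⟨h4.trans (Ordinal.card_le_card ha.le), a, ha, h4⟩
  have hcard : b = b.card.ord := by
    refine le_antisymm ?_ (Cardinal.ord_card_le b)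
    by_contra hlt
    rw [not_le] at hlt
    have h3 := (hpow _ hlt).1
    rw [Cardinal.card_ord] at h3
    exact absurd (Cardinal.cantor b.card) (not_lt.2 h3)
  have hinf : ℵ₀ < b.card := by
    rw [← Cardinal.ord_lt_ord, ← hcard, Cardinal.ord_aleph0]
    exact hωb
  refine ⟨b.card, hcard, hinf.le, fun hreg => ?_, hδb⟩
  have hsl : Cardinal.IsStrongPrelimit b.card := by
    intro x hx
    have hxb : x.ord < b := by
      rw [hcard]
      exact Cardinal.ord_lt_ord.2 hx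
    obtain ⟨-, a, ha, h3⟩ := hpow _ hxb
    rw [Cardinal.card_ord] at h3
    refine h3.trans_lt ?_
    rw [hcard] at ha
    exact Cardinal.lt_ord.1 ha
  have hin : b.card.IsInaccessible := ⟨hinf, hreg.2, hsl⟩
  have h5 := hmax b.card hin (by
    rw [← Cardinal.ord_lt_ord, ← hcard]
    exact hbK)
  have h6 : b ≤ S₀.ord := by
    rw [hcard]
    exact Cardinal.ord_le_ord.2 h5
  exact absurd hSb (not_lt.2 h6)

end Pool.Agent.H88.HV
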