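import Pool.Agent.H79.HV.CLO

/-!
# Board hov_modules (MP_e37c09_lc), row TRA
-/

open Ordinal Cardinal Order Set
open scoped ZFSet

universe u

namespace Pool.Agent.H88.HV

open _root_.HD HD.PRK HD.HV

theorem mem_Wz' {γ l : Ordinal.{u}} {y : ZFSet.{u}} : y ∈ Wz γ l ↔ y ∈ V_ l ∧ NV γ y := by
  unfold Wz
  rw [ZFSet.mem_sep]

/-- the set of the points at which the trace property fails -/
def Bad (γ : Ordinal.{u}) (e : Ordinal.{u} → ZFSet.{u}) : Set Ordinal.{u} :=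
  {ξ | IsSuccLimit ξ ∧ ∃ y, WV γ ξ y ∧ ∀ ζ < ξ, y ≠ e ζ ∩ V_ ξ}

theorem pf_TRA (hW : T_WZF.{u}) (hU : T_UNI.{u}) (hF : T_FDS.{u}) : T_TRA.{u} := by
  intro K hK hK0 γ hfit hcoh e he
  have hcof : ℵ₀ < K.ord.cof := by
    rw [hK.cof_ord]
    exact hK0
  have hlim : IsSuccLimit K.ord := Cardinal.isSuccLimit_ord hK.1
  have hKpos : (0 : Ordinal.{u}) < K.ord := hlim.bot_lt
  have hC0 := fun (h : Ordinal.{u} → Ordinal.{u}) hh =>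
    Pool.Agent.H79.HV.clo_clb hK hK0 γ h hh
  by_contra hno
  have hbad : Sta K.ord {ξ | ξ ∈ Bad γ e ∧ (γ < K.ord → γ < ξ)} := by
    intro C hC
    by_contra hnot
    refine hno ⟨_, All.ci K.ord C _ hcof hC (hC0 (fun _ => 0) fun _ _ => hKpos), ?_⟩
    rintro ξ ⟨hξC, hξl, -, hξg⟩ hξK x hx
    by_contra hx'
    refine hnot ⟨ξ, hξK, hξC, ⟨hξl, x, hx, fun ζ hζ h => hx' ⟨ζ, hζ, h⟩⟩, hξg⟩
  set S : Set Ordinal.{u} := {ξ | ξ ∈ Bad γ e ∧ (γ < K.ord → γ < ξ)} with hSdef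
  have hex : ∀ ξ, ∃ y a : ZFSet.{u}, ξ ∈ S → WV γ ξ y ∧ (∀ ζ < ξ, y ≠ e ζ ∩ V_ ξ) ∧
      a ∈ V_ (min γ ξ) ∧ NF.ODp a y := by
    intro ξ
    by_cases hξ : ξ ∈ S
    · obtain ⟨⟨hξl, y, hy, hy'⟩, -⟩ := hξ
      obtain ⟨a, ha, hay⟩ := ((ZFSet.hereditarily_iff.1 hy.1).1 : PV (min γ ξ) y)
      exact ⟨y, a, fun _ => ⟨hy, hy', ha, hay⟩⟩
    · exact ⟨∅, ∅, fun h => absurd h hξ⟩
  choose y a hya using hex
  -- the rank of the parameter is constant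
  obtain ⟨r, hrK, hS1⟩ := (hF K hK hK0 S hbad).1 (fun ξ => (a ξ).rank) (by
    intro b hb hbK hb0
    exact (ZFSet.mem_vonNeumann.1 (hya b hb).2.2.1).trans_le (min_le_right _ _))
  obtain ⟨ξ0, hξ0K, -, hξ0S, hξ0r⟩ := hS1 _ (hC0 (fun _ => 0) fun _ _ => hKpos)
  have hrγ : r < γ := by
    have := ZFSet.mem_vonNeumann.1 (hya ξ0 hξ0S).2.2.1
    have h2 : (a ξ0).rank = r := hξ0r
    rw [h2] at this
    exact this.trans_le (min_le_left _ _)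
  have hl : succ r < γ := hfit.lim.succ_lt hrγ
  obtain ⟨ν, hν, f, hf⟩ := hfit.few (succ r) hl
  obtain ⟨i, hi, hS2⟩ := (hF K hK hK0 _ hS1).2 ν hν f a (by
    intro b hb hbK
    have hbr : (a b).rank = r := hb.2
    exact hf (a b) (ZFSet.mem_vonNeumann.2 (hbr ▸ lt_succ _)))
  set S2 : Set Ordinal.{u} := {b | b ∈ {b | b ∈ S ∧ (a b).rank = r} ∧ a b = f i} with hS2def
  obtain ⟨A, hA⟩ : ∃ A, A = f i := ⟨_, rfl⟩
  have hS2S : ∀ b ∈ S2, b ∈ S ∧ a b = A ∧ A ∈ V_ (succ r) := by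
    intro b hb
    have hbr : (a b).rank = r := hb.1.2
    have hba : a b = A := by rw [hA]; exact hb.2
    exact ⟨hb.1.1, hba, by rw [← hba]; exact ZFSet.mem_vonNeumann.2 (hbr ▸ lt_succ _)⟩
  -- the relations
  have hexR : ∀ ξ, ∃ R : ZFSet.{u}, ξ ∈ S2 → OD R ∧ R ⊆ ZFSet.prod (V_ (succ r)) (Wz γ ξ) ∧
      ∀ z, ZFSet.pair A z ∈ R ↔ z ∈ y ξ := by
    intro ξ
    by_cases hξ : ξ ∈ S2
    · obtain ⟨h1, h2, h3⟩ := hS2S ξ hξ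
      obtain ⟨h4, -, -, h5⟩ := hya ξ h1
      rw [h2] at h5
      obtain ⟨R, hR⟩ := hU.1 (succ r) (Wz γ ξ) A (y ξ) (hW.2.1 γ ξ) h3 h5 (hW.2.2 γ ξ _ h4)
      exact ⟨R, fun _ => hR⟩
    · exact ⟨∅, fun h => absurd h hξ⟩
  choose R hR using hexR
  obtain ⟨T, hT, hTsub, hTC⟩ := hcoh (succ r) hl S2 R hS2 fun b hb _ => ⟨(hR b hb).1, (hR b hb).2.1⟩
  -- the set with the parameter
  obtain ⟨Y, hY⟩ : ∃ Y, Y = ZFSet.sep (fun z => ZFSet.pair A z ∈ T) (Wz γ K.ord) := ⟨_, rfl⟩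
  have hmY : ∀ z, ZFSet.pair A z ∈ T ↔ z ∈ Y := by
    intro z
    rw [hY, ZFSet.mem_sep]
    refine ⟨fun h => ⟨?_, h⟩, fun h => h.2⟩
    exact (ZFSet.pair_mem_prod.1 (hTsub h)).2
  obtain ⟨ξ1, -, -, hξ1, -⟩ := hTC _ (hC0 (fun _ => 0) fun _ _ => hKpos)
  have hAV : A ∈ V_ (succ r) := (hS2S ξ1 hξ1).2.2
  have hYP : PV γ Y := ⟨A, ZFSet.vonNeumann_subset_of_le hl.le hAV, hU.2 T A Y hT hmY⟩
  have hWY : WV γ K.ord Y := by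
    refine ⟨?_, fun z hz => ?_⟩
    · rw [min_eq_left hfit.le]
      refine ZFSet.hereditarily_iff.2 ⟨hYP, fun z hz => ?_⟩
      rw [hY, ZFSet.mem_sep] at hz
      exact (mem_Wz'.1 hz.1).2
    · rw [hY, ZFSet.mem_sep] at hz
      exact (mem_Wz'.1 hz.1).1
  obtain ⟨ζ, hζ, hYe⟩ := he Y hWY
  -- a point above ζ
  obtain ⟨ξ, hξK, hξC, hξS, hξT⟩ := hTC {x | x ∈ (univ : Set Ordinal.{u}) ∧ ζ < x} (by
    refine ⟨fun b hb => ?_, fun x hx hx0 h => ⟨trivial, ?_⟩⟩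
    · exact ⟨succ (max b ζ), hlim.succ_lt (max_lt hb hζ),
        (le_max_left b ζ).trans_lt (lt_succ _), trivial, (le_max_right b ζ).trans_lt (lt_succ _)⟩
    · obtain ⟨z, hz, -, hz2⟩ := h 0 hx0
      exact lt_trans hz2.2 hz)
  refine (hya ξ (hS2S ξ hξS).1).2.1 ζ hξC.2 ?_
  ext w
  rw [ZFSet.mem_inter, ← hYe, ← (hR ξ hξS).2.2 w, hξT, hmY, ZFSet.pair_mem_prod]
  constructor
  · rintro ⟨h1, -, h2⟩
    exact ⟨h1, (mem_Wz'.1 h2).1⟩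
  · rintro ⟨h1, h2⟩
    refine ⟨h1, hAV, mem_Wz'.2 ⟨h2, ?_⟩⟩
    rw [hY, ZFSet.mem_sep] at h1
    exact (mem_Wz'.1 h1.1).2

end Pool.Agent.H88.HV
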